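import Mathlib

/-!
# (claw, 4K_1, bridge)-free graphs need not be perfect or of bounded clique-width

For every `c` there is a finite (claw, `4K_1`, bridge)-free graph which is not perfect and whose
clique-width is greater than `c`.  The graph is the complement of the disjoint union of a 5-cycle
and the 1-subdivision of a large complete graph.
-/

namespace Pool.Agent.Results.MP_0c56be_co.CliqueWidthDisproof

open Finset

/-- Clique-width expressions using the labels `Fin k`. -/
inductive KExpr (k : ℕ) : Type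
  | single (i : Fin k) : KExpr k
  | union (s t : KExpr k) : KExpr k
  | relabel (i j : Fin k) (s : KExpr k) : KExpr k
  | join (i j : Fin k) (h : i ≠ j) (s : KExpr k) : KExpr k

/-- The vertex type of the labelled graph built by an expression. -/
def KExpr.V {k : ℕ} : KExpr k → Type
  | .single _ => Unit
  | .union s t => s.V ⊕ t.V
  | .relabel _ _ s => s.V
  | .join _ _ _ s => s.V

/-- The labels of the vertices of the labelled graph built by an expression. -/
def KExpr.lab {k : ℕ} : (e : KExpr k) → e.V → Fin k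
  | .single i => fun _ => i
  | .union s t => fun x => Sum.elim s.lab t.lab x
  | .relabel i j s => fun x => if s.lab x = i then j else s.lab x
  | .join _ _ _ s => s.lab

/-- Adding all edges between the vertices of label `i` and those of label `j`, where `i ≠ j`. -/
def addEdges {V : Type} {k : ℕ} (G : SimpleGraph V) (lab : V → Fin k) (i j : Fin k) (h : i ≠ j) :
    SimpleGraph V where
  Adj x y := G.Adj x y ∨ (lab x = i ∧ lab y = j) ∨ (lab x = j ∧ lab y = i)
  symm := ⟨by
    intro x y hxy
    rcases hxy with h1 | h1 | h1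
    · exact Or.inl h1.symm
    · exact Or.inr (Or.inr ⟨h1.2, h1.1⟩)
    · exact Or.inr (Or.inl ⟨h1.2, h1.1⟩)⟩
  loopless := ⟨by
    intro x hx
    rcases hx with h1 | h1 | h1
    · exact G.irrefl h1
    · exact h (h1.1.symm.trans h1.2)
    · exact h (h1.2.symm.trans h1.1)⟩

/-- The graph built by an expression. -/
def KExpr.graph {k : ℕ} : (e : KExpr k) → SimpleGraph e.V
  | .single _ => (⊥ : SimpleGraph Unit)
  | .union s t => SimpleGraph.sum s.graph t.graph
  | .relabel _ _ s => s.graph
  | .join i j h s => addEdges s.graph s.lab i j h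

/-- `G` can be built using the `k` labels `Fin k`. -/
def Buildable {V : Type} (G : SimpleGraph V) (k : ℕ) : Prop :=
  ∃ e : KExpr k, Nonempty (G ≃g e.graph)

/-- The clique-width of a graph: the least number of labels that suffice to build it. -/
noncomputable def cliqueWidth {V : Type} (G : SimpleGraph V) : ℕ := sInf {k : ℕ | Buildable G k}

/-- `G` is `F`-free: no induced subgraph of `G` is isomorphic to `F`. -/
def IsFree {U V : Type} (F : SimpleGraph U) (G : SimpleGraph V) : Prop := IsEmpty (F ↪g G)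

/-- The claw `K_{1,3}`. -/
def claw : SimpleGraph (Fin 1 ⊕ Fin 3) := completeBipartiteGraph (Fin 1) (Fin 3)

/-- The edgeless graph on four vertices. -/
def fourK1 : SimpleGraph (Fin 4) := ⊥

/-- The bridge: the vertices `a = 0`, `b = 1`, `x₁ = 2`, `y₁ = 3`, `x₂ = 4`, `y₂ = 5`, where
`a` and `b` are adjacent to each other and to all other vertices, and the remaining edges are
`x₁y₁` and `x₂y₂`. -/
def bridge : SimpleGraph (Fin 6) :=
  SimpleGraph.fromRel fun x y => x = 0 ∨ x = 1 ∨ (x = 2 ∧ y = 3) ∨ (x = 4 ∧ y = 5)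

/-- A graph is perfect if the chromatic number of every induced subgraph equals the
clique number of that subgraph. -/
def IsPerfect {V : Type} (G : SimpleGraph V) : Prop :=
  ∀ s : Set V, (G.induce s).chromaticNumber = ((G.induce s).cliqueNum : ℕ∞)

/-! ### Every finite nonempty graph is buildable -/

instance KExpr.fintypeV {k : ℕ} : (e : KExpr k) → Fintype e.V
  | .single _ => inferInstanceAs (Fintype Unit)
  | .union s t => by
      letI := KExpr.fintypeV s
      letI := KExpr.fintypeV t
      exact inferInstanceAs (Fintype (s.V ⊕ t.V))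
  | .relabel _ _ s => KExpr.fintypeV s
  | .join _ _ _ s => KExpr.fintypeV s

theorem exists_discrete {k : ℕ} (s : Finset (Fin k)) (hs : s.Nonempty) :
    ∃ e : KExpr k, Function.Injective e.lab ∧ (∀ i, i ∈ s ↔ ∃ x, e.lab x = i) ∧
      ∀ x y, ¬ e.graph.Adj x y := by
  classical
  induction hs using Finset.Nonempty.cons_induction with
  | singleton a =>
    refine ⟨.single a, ?_, ?_, ?_⟩
    · intro x y _
      rfl
    · intro i
      constructor
      · intro hi
        exact ⟨(), (Finset.mem_singleton.mp hi).symm⟩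
      · rintro ⟨x, hx⟩
        exact Finset.mem_singleton.mpr hx.symm
    · intro x y h
      exact h
  | cons a s ha _ ih =>
    obtain ⟨e, hinj, hmem, hadj⟩ := ih
    refine ⟨.union (.single a) e, ?_, ?_, ?_⟩
    · rintro (x | x) (y | y) hxy
      · rfl
      · exact absurd ((hmem a).mpr ⟨y, hxy.symm⟩) ha
      · exact absurd ((hmem a).mpr ⟨x, hxy⟩) ha
      · exact congrArg Sum.inr (hinj hxy)
    · intro i
      rw [Finset.mem_cons]
      constructor
      · rintro (rfl | hi)
        · exact ⟨Sum.inl (), rfl⟩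
        · obtain ⟨x, hx⟩ := (hmem i).mp hi
          exact ⟨Sum.inr x, hx⟩
      · rintro ⟨x | x, hx⟩
        · exact Or.inl hx.symm
        · exact Or.inr ((hmem i).mpr ⟨x, hx⟩)
    · rintro (x | x) (y | y) h
      · exact h
      · exact absurd h (by show ¬ ((false : Bool) = true); simp)
      · exact absurd h (by show ¬ ((false : Bool) = true); simp)
      · exact hadj x y h

theorem exists_expr {k : ℕ} (hk : 0 < k) (l : List (Fin k × Fin k)) (hl : ∀ p ∈ l, p.1 ≠ p.2) :
    ∃ e : KExpr k, Function.Bijective e.lab ∧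
      ∀ x y, e.graph.Adj x y ↔ ∃ p ∈ l, (e.lab x = p.1 ∧ e.lab y = p.2) ∨
        (e.lab x = p.2 ∧ e.lab y = p.1) := by
  induction l with
  | nil =>
    have : Nonempty (Fin k) := ⟨⟨0, hk⟩⟩
    obtain ⟨e, h1, h2, h3⟩ := exists_discrete (Finset.univ : Finset (Fin k)) Finset.univ_nonempty
    refine ⟨e, ⟨h1, fun i => (h2 i).mp (Finset.mem_univ i)⟩, ?_⟩
    intro x y
    constructor
    · intro h
      exact absurd h (h3 x y)
    · rintro ⟨p, hp, _⟩
      simp at hp
  | cons q l ih =>
    obtain ⟨e, h1, h2⟩ := ih (fun p hp => hl p (List.mem_cons_of_mem _ hp))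
    refine ⟨.join q.1 q.2 (hl q List.mem_cons_self) e, h1, ?_⟩
    intro x y
    constructor
    · intro h
      rcases h with h | h
      · obtain ⟨p, hp, hp'⟩ := (h2 x y).mp h
        exact ⟨p, List.mem_cons_of_mem _ hp, hp'⟩
      · exact ⟨q, List.mem_cons_self, h⟩
    · rintro ⟨p, hp, hp'⟩
      rcases List.mem_cons.mp hp with rfl | hp
      · exact Or.inr hp'
      · exact Or.inl ((h2 x y).mpr ⟨p, hp, hp'⟩)

theorem exists_buildable {V : Type} [Fintype V] [Nonempty V] (G : SimpleGraph V) :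
    ∃ k, Buildable G k := by
  classical
  let n := Fintype.card V
  have hn : 0 < n := Fintype.card_pos
  let f : V ≃ Fin n := Fintype.equivFin V
  let l : List (Fin n × Fin n) :=
    ((Finset.univ : Finset (Fin n × Fin n)).filter
      (fun p => G.Adj (f.symm p.1) (f.symm p.2))).toList
  have hlmem : ∀ p, p ∈ l ↔ G.Adj (f.symm p.1) (f.symm p.2) := by
    intro p
    simp [l]
  have hl : ∀ p ∈ l, p.1 ≠ p.2 := by
    intro p hp h
    have := (hlmem p).mp hp
    rw [h] at this
    exact G.irrefl this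
  obtain ⟨e, h1, h2⟩ := exists_expr hn l hl
  refine ⟨n, e, ⟨?_⟩⟩
  let g : e.V ≃ Fin n := Equiv.ofBijective e.lab h1
  refine ⟨f.trans g.symm, ?_⟩
  intro u v
  have hu : e.lab (g.symm (f u)) = f u := g.apply_symm_apply (f u)
  have hv : e.lab (g.symm (f v)) = f v := g.apply_symm_apply (f v)
  show e.graph.Adj (g.symm (f u)) (g.symm (f v)) ↔ G.Adj u v
  rw [h2, hu, hv]
  constructor
  · rintro ⟨p, hp, h | h⟩
    · have := (hlmem p).mp hp
      rw [← h.1, ← h.2] at this
      simpa using this
    · have := (hlmem p).mp hp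
      rw [← h.1, ← h.2] at this
      simpa using this.symm
  · intro h
    refine ⟨(f u, f v), (hlmem _).mpr (by simpa using h), Or.inl ⟨rfl, rfl⟩⟩

/-! ### Balanced cuts of buildable graphs -/

open Classical in
theorem good_cut {k : ℕ} (e : KExpr k) : ∀ (w : e.V → ℕ), (∀ x, w x ≤ 1) → ∀ t : ℕ, 1 ≤ t →
    t ≤ ∑ x, w x →
    ∃ (A : Set e.V) (l : e.V → Fin k),
      (∀ u ∈ A, ∀ v ∈ A, l u = l v → e.lab u = e.lab v) ∧
      (∀ u ∈ A, ∀ v ∈ A, l u = l v → ∀ z ∉ A, (e.graph.Adj u z ↔ e.graph.Adj v z)) ∧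
      t ≤ ∑ x, (if x ∈ A then w x else 0) ∧ ∑ x, (if x ∈ A then w x else 0) < 2 * t := by
  induction e with
  | single i =>
    intro w hw t ht h
    have hs : ∑ x : KExpr.V (.single i), w x = w () := Fintype.sum_unique (ι := Unit) w
    refine ⟨Set.univ, fun _ => i, fun _ _ _ _ _ => rfl, fun _ _ _ _ _ z hz => absurd (Set.mem_univ z) hz,
      ?_, ?_⟩
    · simpa using h
    · have h1 := hw ()
      simp only [Set.mem_univ, if_true]
      rw [hs]
      omega
  | union s t ihs iht =>
    intro w hw m hm h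
    have hsum : ∀ f : KExpr.V (.union s t) → ℕ, ∑ x, f x = ∑ x : s.V, f (Sum.inl x) + ∑ x : t.V, f (Sum.inr x) :=
      fun f => Fintype.sum_sum_type f
    by_cases h1 : m ≤ ∑ x : s.V, w (Sum.inl x)
    · obtain ⟨A, l, hA1, hA2, hA3, hA4⟩ := ihs (fun x => w (Sum.inl x)) (fun x => hw _) m hm h1
      refine ⟨Sum.inl '' A, Sum.elim l (fun x => t.lab x), ?_, ?_, ?_, ?_⟩
      · rintro _ ⟨u, hu, rfl⟩ _ ⟨v, hv, rfl⟩ huv
        exact hA1 u hu v hv huv
      · rintro _ ⟨u, hu, rfl⟩ _ ⟨v, hv, rfl⟩ huv (z | z) hz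
        · exact hA2 u hu v hv huv z (fun hz' => hz ⟨z, hz', rfl⟩)
        · exact Iff.rfl
      · rw [hsum]
        have e1 : ∑ x : t.V, (if (Sum.inr x : s.V ⊕ t.V) ∈ (Sum.inl '' A : Set (s.V ⊕ t.V)) then w (Sum.inr x) else 0) = 0 := by
          apply Finset.sum_eq_zero
          intro x _
          rw [if_neg]
          rintro ⟨y, _, hy⟩
          exact absurd hy (by simp)
        have e2 : ∑ x : s.V, (if (Sum.inl x : s.V ⊕ t.V) ∈ (Sum.inl '' A : Set (s.V ⊕ t.V)) then w (Sum.inl x) else 0)
            = ∑ x : s.V, (if x ∈ A then w (Sum.inl x) else 0) := by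
          apply Finset.sum_congr rfl
          intro x _
          simp
        have := hA3
        rw [← e2] at this
        exact le_trans this (Nat.le_add_right _ _)
      · rw [hsum]
        have e1 : ∑ x : t.V, (if (Sum.inr x : s.V ⊕ t.V) ∈ (Sum.inl '' A : Set (s.V ⊕ t.V)) then w (Sum.inr x) else 0) = 0 := by
          apply Finset.sum_eq_zero
          intro x _
          rw [if_neg]
          rintro ⟨y, _, hy⟩
          exact absurd hy (by simp)
        have e2 : ∑ x : s.V, (if (Sum.inl x : s.V ⊕ t.V) ∈ (Sum.inl '' A : Set (s.V ⊕ t.V)) then w (Sum.inl x) else 0)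
            = ∑ x : s.V, (if x ∈ A then w (Sum.inl x) else 0) := by
          apply Finset.sum_congr rfl
          intro x _
          simp
        have h4 := hA4
        rw [← e2] at h4
        exact lt_of_eq_of_lt ((congrArg₂ (· + ·) rfl e1).trans (Nat.add_zero _)) h4
    · by_cases h2 : m ≤ ∑ x : t.V, w (Sum.inr x)
      · obtain ⟨A, l, hA1, hA2, hA3, hA4⟩ := iht (fun x => w (Sum.inr x)) (fun x => hw _) m hm h2
        have e1 : ∑ x : s.V, (if (Sum.inl x : s.V ⊕ t.V) ∈ (Sum.inr '' A : Set (s.V ⊕ t.V)) then w (Sum.inl x) else 0) = 0 := by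
          apply Finset.sum_eq_zero
          intro x _
          rw [if_neg]
          rintro ⟨y, _, hy⟩
          exact absurd hy (by simp)
        have e2 : ∑ x : t.V, (if (Sum.inr x : s.V ⊕ t.V) ∈ (Sum.inr '' A : Set (s.V ⊕ t.V)) then w (Sum.inr x) else 0)
            = ∑ x : t.V, (if x ∈ A then w (Sum.inr x) else 0) := by
          apply Finset.sum_congr rfl
          intro x _
          simp
        refine ⟨Sum.inr '' A, Sum.elim (fun x => s.lab x) l, ?_, ?_, ?_, ?_⟩
        · rintro _ ⟨u, hu, rfl⟩ _ ⟨v, hv, rfl⟩ huv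
          exact hA1 u hu v hv huv
        · rintro _ ⟨u, hu, rfl⟩ _ ⟨v, hv, rfl⟩ huv (z | z) hz
          · exact Iff.rfl
          · exact hA2 u hu v hv huv z (fun hz' => hz ⟨z, hz', rfl⟩)
        · rw [hsum]
          have := hA3
          rw [← e2] at this
          exact le_trans this (Nat.le_add_left _ _)
        · rw [hsum]
          have h4 := hA4
          rw [← e2] at h4
          exact lt_of_eq_of_lt ((congrArg₂ (· + ·) e1 rfl).trans (Nat.zero_add _)) h4
      · refine ⟨Set.univ, KExpr.lab _, fun _ _ _ _ h => h,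
          fun _ _ _ _ _ z hz => absurd (Set.mem_univ z) hz, ?_, ?_⟩
        · simpa using h
        · simp only [Set.mem_univ, if_true]
          rw [hsum]
          omega
  | relabel i j s ih =>
    intro w hw t ht h
    obtain ⟨A, l, hA1, hA2, hA3, hA4⟩ := ih w hw t ht h
    refine ⟨A, l, ?_, hA2, hA3, hA4⟩
    intro u hu v hv huv
    have := hA1 u hu v hv huv
    show (if s.lab u = i then j else s.lab u) = (if s.lab v = i then j else s.lab v)
    rw [this]
  | join i j hij s ih =>
    intro w hw t ht h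
    obtain ⟨A, l, hA1, hA2, hA3, hA4⟩ := ih w hw t ht h
    refine ⟨A, l, hA1, ?_, hA3, hA4⟩
    intro u hu v hv huv z hz
    have h1 := hA1 u hu v hv huv
    have h2 := hA2 u hu v hv huv z hz
    show (s.graph.Adj u z ∨ (s.lab u = i ∧ s.lab z = j) ∨ (s.lab u = j ∧ s.lab z = i)) ↔
      (s.graph.Adj v z ∨ (s.lab v = i ∧ s.lab z = j) ∨ (s.lab v = j ∧ s.lab z = i))
    rw [h1, h2]

/-! ### The sparse graph `H`: a 5-cycle plus a subdivided complete graph -/

/-- The vertex type: a 5-cycle, the `N` branch vertices and the subdivision vertices. -/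
abbrev VH (N : ℕ) : Type := Fin 5 ⊕ (Fin N ⊕ (Fin N × Fin N))

/-- Adjacency of the sparse graph. -/
def adjH (N : ℕ) : VH N → VH N → Prop
  | Sum.inl a, Sum.inl b => a + 1 = b ∨ b + 1 = a
  | Sum.inr (Sum.inl i), Sum.inr (Sum.inr p) => p.1 < p.2 ∧ (i = p.1 ∨ i = p.2)
  | Sum.inr (Sum.inr p), Sum.inr (Sum.inl i) => p.1 < p.2 ∧ (i = p.1 ∨ i = p.2)
  | _, _ => False

theorem adjH_symm (N : ℕ) : ∀ x y, adjH N x y → adjH N y x := by
  rintro (a | i | p) (b | j | q) h <;> simp only [adjH] at h ⊢
  · exact h.symm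
  · exact h
  · exact h

theorem adjH_irrefl (N : ℕ) : ∀ x, ¬ adjH N x x := by
  rintro (a | i | p) h <;> simp only [adjH] at h
  revert a
  decide

/-- The sparse graph. -/
def H (N : ℕ) : SimpleGraph (VH N) where
  Adj := adjH N
  symm := ⟨adjH_symm N⟩
  loopless := ⟨adjH_irrefl N⟩

theorem no_triangle (N : ℕ) : ∀ x y z, adjH N x y → adjH N y z → adjH N x z → False := by
  rintro (a | i | p) (b | j | q) (c | k | r) h1 h2 h3 <;> simp only [adjH] at h1 h2 h3
  revert a b c
  decide

theorem no_C4 (N : ℕ) : ∀ u v x y, u ≠ v → x ≠ y → adjH N u x → adjH N u y → adjH N v x →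
    adjH N v y → False := by
  rintro (a | i | p) (b | j | q) (c | k | r) (d | l | s) h1 h2 h3 h4 h5 h6 <;>
    simp only [adjH] at h3 h4 h5 h6
  · have g1 : a ≠ b := fun h => h1 (congrArg _ h)
    have g2 : c ≠ d := fun h => h2 (congrArg _ h)
    clear h1 h2
    revert a b c d
    decide
  · obtain ⟨r1, r2⟩ := r
    obtain ⟨s1, s2⟩ := s
    simp only [ne_eq, Sum.inr.injEq, Sum.inl.injEq, Prod.mk.injEq] at *
    obtain ⟨h3a, h3⟩ := h3
    obtain ⟨h4a, h4⟩ := h4
    obtain ⟨h5a, h5⟩ := h5
    obtain ⟨h6a, h6⟩ := h6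
    rw [Fin.lt_def] at *
    simp only [Fin.ext_iff] at *
    omega
  · obtain ⟨r1, r2⟩ := p
    obtain ⟨s1, s2⟩ := q
    simp only [ne_eq, Sum.inr.injEq, Sum.inl.injEq, Prod.mk.injEq] at *
    obtain ⟨h3a, h3⟩ := h3
    obtain ⟨h4a, h4⟩ := h4
    obtain ⟨h5a, h5⟩ := h5
    obtain ⟨h6a, h6⟩ := h6
    rw [Fin.lt_def] at *
    simp only [Fin.ext_iff] at *
    omega

/-- The counterexample: the complement of the sparse graph. -/
def G (N : ℕ) : SimpleGraph (VH N) := (H N)ᶜ

theorem adjH_of_not_adj {N : ℕ} {x y : VH N} (hxy : x ≠ y) (h : ¬ (G N).Adj x y) : adjH N x y := by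
  by_contra h'
  exact h ((SimpleGraph.compl_adj _ _ _).mpr ⟨hxy, h'⟩)

theorem free_claw (N : ℕ) : IsFree claw (G N) := by
  refine ⟨fun f => ?_⟩
  have key : ∀ i j : Fin 3, i ≠ j → adjH N (f (Sum.inr i)) (f (Sum.inr j)) := by
    intro i j hij
    apply adjH_of_not_adj
    · intro h
      exact hij (Sum.inr.inj (f.injective h))
    · rw [f.map_adj_iff]
      simp [claw]
  exact no_triangle N _ _ _ (key 0 1 (by decide)) (key 1 2 (by decide)) (key 0 2 (by decide))

theorem free_fourK1 (N : ℕ) : IsFree fourK1 (G N) := by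
  refine ⟨fun f => ?_⟩
  have key : ∀ i j : Fin 4, i ≠ j → adjH N (f i) (f j) := by
    intro i j hij
    apply adjH_of_not_adj
    · intro h
      exact hij (f.injective h)
    · rw [f.map_adj_iff]
      simp [fourK1]
  exact no_triangle N _ _ _ (key 0 1 (by decide)) (key 1 2 (by decide)) (key 0 2 (by decide))

theorem free_bridge (N : ℕ) : IsFree bridge (G N) := by
  refine ⟨fun f => ?_⟩
  have key : ∀ i j : Fin 6, i ≠ j → ¬ bridge.Adj i j → adjH N (f i) (f j) := by
    intro i j hij h
    apply adjH_of_not_adj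
    · intro h
      exact hij (f.injective h)
    · rw [f.map_adj_iff]
      exact h
  refine no_C4 N (f 2) (f 3) (f 4) (f 5) (fun h => absurd (f.injective h) (by decide))
    (fun h => absurd (f.injective h) (by decide)) (key 2 4 (by decide) ?_) (key 2 5 (by decide) ?_)
    (key 3 4 (by decide) ?_) (key 3 5 (by decide) ?_) <;>
  · simp only [bridge, SimpleGraph.fromRel_adj]
    decide

theorem not_perfect (N : ℕ) : ¬ IsPerfect (G N) := by
  intro hp
  let s : Set (VH N) := Set.range Sum.inl
  have hs := hp s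
  have hadj : ∀ a b : Fin 5, ((G N).induce s).Adj ⟨Sum.inl a, ⟨a, rfl⟩⟩ ⟨Sum.inl b, ⟨b, rfl⟩⟩ ↔
      (a ≠ b ∧ ¬ (a + 1 = b ∨ b + 1 = a)) := by
    intro a b
    show (H N)ᶜ.Adj (Sum.inl a) (Sum.inl b) ↔ _
    rw [SimpleGraph.compl_adj]
    constructor
    · rintro ⟨h1, h2⟩
      exact ⟨fun h => h1 (congrArg _ h), h2⟩
    · rintro ⟨h1, h2⟩
      exact ⟨fun h => h1 (Sum.inl.inj h), h2⟩
  -- clique number at most two
  have hcl : ((G N).induce s).cliqueNum ≤ 2 := by
    by_contra hlt
    push Not at hlt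
    obtain ⟨t, ht⟩ := ((G N).induce s).exists_isNClique_cliqueNum
    have h3 : 2 < t.card := by rw [ht.card_eq]; exact hlt
    obtain ⟨a, b, c, ha, hb, hc, hab, hac, hbc⟩ := Finset.two_lt_card_iff.mp h3
    have hcl := ht.isClique
    have e1 := hcl ha hb hab
    have e2 := hcl ha hc hac
    have e3 := hcl hb hc hbc
    obtain ⟨_, ⟨a, rfl⟩⟩ := a
    obtain ⟨_, ⟨b, rfl⟩⟩ := b
    obtain ⟨_, ⟨c, rfl⟩⟩ := c
    rw [hadj] at e1 e2 e3
    clear ha hb hc hab hac hbc
    revert a b c
    decide
  have hle : ((G N).induce s).chromaticNumber ≤ ((2 : ℕ) : ℕ∞) := by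
    rw [hs]
    exact_mod_cast hcl
  have hcol : ((G N).induce s).Colorable 2 := SimpleGraph.chromaticNumber_le_iff_colorable.mp hle
  obtain ⟨C⟩ := hcol
  let f : Fin 5 → Fin 2 := fun a => C ⟨Sum.inl a, ⟨a, rfl⟩⟩
  have hf : ∀ a b : Fin 5, (a ≠ b ∧ ¬ (a + 1 = b ∨ b + 1 = a)) → f a ≠ f b := by
    intro a b hab
    exact C.valid ((hadj a b).mpr hab)
  have h02 := hf 0 2 (by decide)
  have h24 := hf 2 4 (by decide)
  have h41 := hf 4 1 (by decide)
  have h13 := hf 1 3 (by decide)
  have h30 := hf 3 0 (by decide)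
  omega

/-- The key estimate: buildable with `k` labels forces the number of branch vertices to be
small. -/
theorem bound (m k : ℕ) (hm : 1 ≤ m) (hb : Buildable (G (3 * m)) k) : m + 1 ≤ 3 * k := by
  classical
  obtain ⟨e, ⟨φ⟩⟩ := hb
  -- transport the balanced cut
  let w : e.V → ℕ := fun x => match φ.symm x with
    | Sum.inr (Sum.inl _) => 1
    | _ => 0
  have hw : ∀ x, w x ≤ 1 := by
    intro x
    simp only [w]
    split <;> omega
  have hsumw : ∀ A : Set e.V, ∑ x, (if x ∈ A then w x else 0) =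
      ((Finset.univ : Finset (Fin (3 * m))).filter
        (fun i => φ (Sum.inr (Sum.inl i)) ∈ A)).card := by
    intro A
    rw [← Equiv.sum_comp φ.toEquiv]
    rw [Fintype.sum_sum_type, Fintype.sum_sum_type]
    have e1 : ∀ y : VH (3 * m), (if φ.toEquiv y ∈ A then w (φ.toEquiv y) else 0) =
        (if φ y ∈ A then (match y with
          | Sum.inr (Sum.inl _) => 1
          | _ => 0) else 0) := by
      intro y
      have : φ.symm (φ.toEquiv y) = y := φ.toEquiv.symm_apply_apply y
      simp only [w, this]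
      rfl
    simp only [e1]
    rw [Finset.card_filter]
    simp
  have htot : m ≤ ∑ x, w x := by
    have h := hsumw Set.univ
    simp only [Set.mem_univ, if_true, Finset.filter_true, Finset.card_univ, Fintype.card_fin] at h
    rw [h]
    omega
  obtain ⟨A, l, -, hA2, hA3, hA4⟩ := good_cut e w hw m hm htot
  rw [hsumw] at hA3 hA4
  -- pull back to the graph
  let B : VH (3 * m) → Prop := fun y => φ y ∈ A
  let L : VH (3 * m) → Fin k := fun y => l (φ y)
  have hB : ∀ u v, B u → B v → L u = L v → ∀ z, ¬ B z → adjH (3 * m) u z → adjH (3 * m) v z := by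
    intro u v hu hv huv z hz huz
    have h1 := hA2 (φ u) hu (φ v) hv huv (φ z) hz
    rw [φ.map_adj_iff, φ.map_adj_iff] at h1
    by_contra hvz
    have hvz' : v ≠ z := fun h => hz (h ▸ hv)
    have h2 : (G (3 * m)).Adj v z := (SimpleGraph.compl_adj _ _ _).mpr ⟨hvz', hvz⟩
    have h3 := h1.mpr h2
    exact ((SimpleGraph.compl_adj _ _ _).mp h3).2 huz
  have hcross : ∀ u v z y, B u → B v → L u = L v → ¬ B z → ¬ B y → adjH (3 * m) u z →
      adjH (3 * m) v y → u = v ∨ z = y := by
    intro u v z y hu hv huv hz hy huz hvy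
    by_contra hcon
    push Not at hcon
    exact no_C4 (3 * m) u v z y hcon.1 hcon.2 huz (hB v u hv hu huv.symm y hy hvy)
      (hB u v hu hv huv z hz huz) hvy
  -- crossing pairs
  let X := (Finset.univ : Finset (Fin (3 * m))).filter (fun i => B (Sum.inr (Sum.inl i)))
  let Y := (Finset.univ : Finset (Fin (3 * m))).filter (fun i => ¬ B (Sum.inr (Sum.inl i)))
  have hXY : X.card + Y.card = 3 * m := by
    have := Finset.card_filter_add_card_filter_not (s := (Finset.univ : Finset (Fin (3 * m))))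
      (fun i => B (Sum.inr (Sum.inl i)))
    simpa [X, Y] using this
  have hX1 : m ≤ X.card := hA3
  have hX2 : X.card < 2 * m := hA4
  let sp : Fin (3 * m) × Fin (3 * m) → VH (3 * m) := fun p =>
    Sum.inr (Sum.inr (min p.1 p.2, max p.1 p.2))
  let F : Fin (3 * m) × Fin (3 * m) → Fin k × Fin (3 * m) := fun p =>
    if B (sp p) then (L (sp p), p.1) else (L (Sum.inr (Sum.inl p.1)), p.2)
  have hspadj : ∀ i j : Fin (3 * m), i ≠ j → adjH (3 * m) (sp (i, j)) (Sum.inr (Sum.inl j)) ∧
      adjH (3 * m) (Sum.inr (Sum.inl i)) (sp (i, j)) := by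
    intro i j hij
    simp only [sp, adjH]
    rcases lt_or_gt_of_ne hij with h | h
    · rw [min_eq_left h.le, max_eq_right h.le]
      exact ⟨⟨h, Or.inr rfl⟩, ⟨h, Or.inl rfl⟩⟩
    · rw [min_eq_right h.le, max_eq_left h.le]
      exact ⟨⟨h, Or.inl rfl⟩, ⟨h, Or.inr rfl⟩⟩
  have hinj : Set.InjOn F (X ×ˢ Y : Finset _) := by
    rintro ⟨i, j⟩ hij ⟨i', j'⟩ hij' hF
    simp only [Finset.coe_product, Set.mem_prod, Finset.mem_coe, X, Y, Finset.mem_filter,
      Finset.mem_univ, true_and] at hij hij'
    have hne : i ≠ j := fun h => hij.2 (h ▸ hij.1)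
    have hne' : i' ≠ j' := fun h => hij'.2 (h ▸ hij'.1)
    have hsame : sp (i, j) = sp (i', j') → (i, j) = (i', j') := by
      intro h
      simp only [sp, Sum.inr.injEq, Prod.mk.injEq] at h
      rcases lt_or_gt_of_ne hne with h1 | h1 <;> rcases lt_or_gt_of_ne hne' with h2 | h2
      · rw [min_eq_left h1.le, max_eq_right h1.le, min_eq_left h2.le, max_eq_right h2.le] at h
        rw [h.1, h.2]
      · rw [min_eq_left h1.le, max_eq_right h1.le, min_eq_right h2.le, max_eq_left h2.le] at h
        exact absurd (h.1 ▸ hij.1) hij'.2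
      · rw [min_eq_right h1.le, max_eq_left h1.le, min_eq_left h2.le, max_eq_right h2.le] at h
        exact absurd (h.2 ▸ hij.1) hij'.2
      · rw [min_eq_right h1.le, max_eq_left h1.le, min_eq_right h2.le, max_eq_left h2.le] at h
        rw [h.1, h.2]
    obtain ⟨a1, a2⟩ := hspadj i j hne
    obtain ⟨b1, b2⟩ := hspadj i' j' hne'
    simp only [F] at hF
    by_cases c1 : B (sp (i, j)) <;> by_cases c2 : B (sp (i', j'))
    · rw [if_pos c1, if_pos c2] at hF
      simp only [Prod.mk.injEq] at hF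
      rcases hcross _ _ _ _ c1 c2 hF.1 hij.2 hij'.2 a1 b1 with h | h
      · exact hsame h
      · simp only [Sum.inr.injEq, Sum.inl.injEq] at h
        rw [hF.2, h]
    · rw [if_pos c1, if_neg c2] at hF
      simp only [Prod.mk.injEq] at hF
      rcases hcross _ _ _ _ c1 hij'.1 hF.1 hij.2 c2 a1 b2 with h | h
      · simp [sp] at h
      · simp [sp] at h
    · rw [if_neg c1, if_pos c2] at hF
      simp only [Prod.mk.injEq] at hF
      rcases hcross _ _ _ _ hij.1 c2 hF.1 c1 hij'.2 a2 b1 with h | h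
      · simp [sp] at h
      · simp [sp] at h
    · rw [if_neg c1, if_neg c2] at hF
      simp only [Prod.mk.injEq] at hF
      rcases hcross _ _ _ _ hij.1 hij'.1 hF.1 c1 c2 a2 b2 with h | h
      · simp only [Sum.inr.injEq, Sum.inl.injEq] at h
        rw [hF.2, h]
      · exact hsame h
  have hcard : (X ×ˢ Y).card ≤ k * (3 * m) := by
    calc (X ×ˢ Y).card = ((X ×ˢ Y).image F).card := (Finset.card_image_of_injOn hinj).symm
      _ ≤ (Finset.univ : Finset (Fin k × Fin (3 * m))).card := Finset.card_le_univ _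
      _ = k * (3 * m) := by simp
  rw [Finset.card_product] at hcard
  have h1 : m * (m + 1) ≤ X.card * Y.card := Nat.mul_le_mul hX1 (by omega)
  have h2 : m * (m + 1) ≤ m * (3 * k) := by
    calc m * (m + 1) ≤ X.card * Y.card := h1
      _ ≤ k * (3 * m) := hcard
      _ = m * (3 * k) := by ring
  exact Nat.le_of_mul_le_mul_left h2 hm

/-- For every `c` there is a finite (claw, `4K_1`, bridge)-free graph that is not perfect and has
clique-width greater than `c`. -/
theorem result : ∀ c : ℕ, ∃ (V : Type) (_ : Fintype V) (G : SimpleGraph V),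
    IsFree claw G ∧ IsFree fourK1 G ∧ IsFree bridge G ∧ ¬ IsPerfect G ∧ c < cliqueWidth G := by
  intro c
  refine ⟨VH (3 * (3 * c + 1)), inferInstance, G (3 * (3 * c + 1)), free_claw _, free_fourK1 _,
    free_bridge _, not_perfect _, ?_⟩
  obtain ⟨k, hk⟩ := exists_buildable (G (3 * (3 * c + 1)))
  have hmem : cliqueWidth (G (3 * (3 * c + 1))) ∈ {k : ℕ | Buildable (G (3 * (3 * c + 1))) k} :=
    Nat.sInf_mem ⟨k, hk⟩
  have := bound (3 * c + 1) _ (by omega) hmem
  omega

end Pool.Agent.Results.MP_0c56be_co.CliqueWidthDisproof
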